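import Mathlib
import Pool.Agent.W484.AH.Bridge

/-!
# Hodge classes on the products of a variety with abelian varieties with complex multiplication

`X` is an arbitrary smooth projective complex variety, `H b` are its rational cohomology groups and
`(D b).part p` the subspaces of type `(p, *)` of `ℂ ⊗ H b`.

`A i` (`i` in a finite or infinite index set) are abelian varieties with complex multiplication by
the CM fields `K i`; the first cohomology group of `A i` is identified with `K i`, and `Φ` is the
union of the CM types. We suppose that the Galois group of the compositum of the fields contains all
the sign changes (`SignChanges`): this holds for instance if the fields are independent and the Galois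
groups of their Galois closures are as large as possible.

The theorem: there is a set `S` of at most `∑ b, dim H b` indices such that all Hodge classes on the
products of `X` and powers of abelian varieties `A i`, `i` not in `S`, are linear combinations of
products of classes of divisors on the product of the abelian varieties and Hodge classes on `X`.

A Hodge class on such a product has Künneth components in the tensor products of first cohomology
groups `V (j 1), …, V (j a)` of the factors `A (j t)` (with repetitions) and `H b`; by the
polarizations `V i` is isomorphic to a Tate twist of its dual, so the components are the morphisms of
Hodge structures from `V (j 1) ⊗ ⋯ ⊗ V (j a)` to a Tate twist of `H b`. These are the Hodge forms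
`f`.

Classes of divisors are absolute Hodge and products and sums of absolute Hodge classes are absolute
Hodge. So if all Hodge classes on `X` are absolute Hodge (take for `good` the absolute Hodge
classes), then so are all Hodge classes on these products. The hypothesis holds for all `X` of
dimension at most three: there all Hodge classes are algebraic.

The idea of the proof: the vectors `X φ` in `ℂ ⊗ H b` by which `f` is given are homogeneous for all
conjugates of the Hodge grading of `H b` by the automorphisms of `ℂ`. Vectors whose types differ for
one of the conjugate gradings are linearly independent; so there are at most `dim H b` types. If the
type is not balanced at an embedding `e` of `K i`, the difference of the types of `φ` and its flip at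
`e` is a multiple of the sign function of `e`. These functions are linearly independent for different
`i`. So there are at most `dim H b` such `i`.
-/

set_option autoImplicit false

open Module

namespace Pool.Agent.Results.MP_4e1cf2_ag.AlmostAllCMFactors

open Pool.Agent.W484.AH

theorem result {ι : Type} {K : ι → Type} [∀ i, Field (K i)] [∀ i, NumberField (K i)]
    [∀ i, NumberField.IsCMField (K i)] {Φ : Set (Emb K)} (hΦ : IsCMType Φ) (hS : SignChanges K)
    {β : Type} [Fintype β] (H : β → Type) [∀ b, AddCommGroup (H b)] [∀ b, Module ℚ (H b)]
    [∀ b, Module.Finite ℚ (H b)] (D : ∀ b, HodgeData (H b)) :
    ∃ S : Finset ι, S.card ≤ ∑ b, finrank ℚ (H b) ∧ ∀ b, (D b).FormsAreProducts Φ S :=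
  main' hΦ hS H D

end Pool.Agent.Results.MP_4e1cf2_ag.AlmostAllCMFactors
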