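import Pool.Agent.W547.AHX.Full

/-!
# Hodge classes on products of surfaces and an abelian variety are absolute Hodge classes

Let `S_0, ..., S_(r-1)` be smooth projective complex surfaces with `b_1 = 0`, `A` a complex abelian
variety and `σ` an automorphism of the field of complex numbers.

Let `T = ⊕ T_i`, `T_i` the transcendental part of `H^2(S_i)(1)`: a polarised rational Hodge
structure with Hodge numbers `(p_i, q_i, p_i)` (structure `HS n`: the rational form `Q` and the
Hodge operator `x`; `c` says to which surface a basis vector belongs), and `W` the Hodge structure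
`H^1(A)` (structure `HW w`). Assume (`HS.Big`) that the only Hodge endomorphisms of `T` are the
rational scalars on the `T_i` and that `2 p_i^2 (p_i^2 + 1) < (q_i - 2 p_i) (q_i + p_i)`, or
`p_i = 1` and `q_i` is not `0` or `2`. Let `T'`, `W'` be the corresponding Hodge structures for the
conjugates under `σ`.

The cohomology of `S_i` is spanned by algebraic classes (whose conjugates are the classes of the
conjugate cycles) and `T_i`. By Poincare duality and Kuenneth a rational class `t` in the component
`H^(2k)(S_(a 1) × ... × S_(a m)) ⊗ H^l(A)` of the cohomology of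
`X = S_(a 1) × ... × S_(a m) × A` is a form with `m` variables in `ℚ^s ⊕ T` and `l` variables in
`H^1(A)`, alternating in the latter (`InKuenneth`).

`K : Conjugate T T' c W W'` records the conjugation by `σ` on de Rham cohomology (the
`σ`-semilinear bijections `T ⊗ ℂ → T' ⊗ ℂ`, ... are determined by the images of rational bases:
matrices `K.D`, `K.F`, and the number `K.z = 2 π i / σ(2 π i)` for the Tate twist `ℚ(-1)`) and on the
`l`-adic cohomology for all primes `l` (matrices `K.E l`, `K.V l` and the `l`-adic unit `K.u l` for
the Tate twist `ℚ(-1)`). They respect the surfaces and the intersection forms, and Deligne's theorem holds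
for the powers of `A`: each Hodge class is absolute Hodge.

`K.IsConj t t'` says that the rational class `t'` on the conjugate `X^σ` has the de Rham component
`σ(t_dR)` and, for all primes `l`, the `l`-adic component `σ(t_l)`.

We prove that for each Hodge class `t` on `X` there is a Hodge class `t'` on `X^σ` of this kind,
that is, `t` is an absolute Hodge class, if in the Kuenneth component each `T_i` occurs less
than `rank T_i` times; this holds for all classes if `X` has less than `rank T_i` factors `S_i` for
all `i`, and for all `X` if `k < rank T_i` for all `i`. For `l > 0` we assume `p_i ≥ 2` for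
all `i`.
-/

open Matrix

namespace Pool.Agent.Results.MP_4e1cf2_ag.SurfacesTimesAbelian

open Pool.Agent.W544.PG Pool.Agent.W547.AHX

/-- Hodge classes on `S_(a 1) × ... × S_(a m) × A` are absolute Hodge classes. -/
theorem result {n r w s m l k : ℕ} (T T' : HS n) (W W' : HW w) (c : Fin n → Fin r)
    (p q : Fin r → ℕ) (hT : T.Big c p q) (hpl : l = 0 ∨ ∀ i, 2 ≤ p i)
    (K : Conjugate T T' c W W') (d : Fin s → Fin r) (cd : Fin s → ℕ) (a : Fin m → Fin r)
    (t : (Fin m → Fin s ⊕ Fin n) → (Fin l → Fin w) → ℚ) (ht : IsHodgeX T W t)
    (htd : InKuenneth c d cd a k t)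
    (hfew : ∀ J L, t J L ≠ 0 → ∀ i,
      (Finset.univ.filter fun j => ∃ b, J j = Sum.inr b ∧ c b = i).card < 2 * p i + q i) :
    ∃ t' : (Fin m → Fin s ⊕ Fin n) → (Fin l → Fin w) → ℚ, IsHodgeX T' W' t' ∧
      InKuenneth c d cd a k t' ∧ K.IsConj t t' :=
  few T T' W W' c p q hT hpl K d cd a t ht htd hfew

end Pool.Agent.Results.MP_4e1cf2_ag.SurfacesTimesAbelian
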